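import Pool.Agent.MXR66.Doors

/-!
Law ID (helper22): for `p` of largest rank and `v` of largest `|V_v|` among the elements with
`w v ∉ Q_p` there is an `s` with `s V_p ⊆ D`, `s V_v ⊆ D`, `(s + p) V_(v+p) ⊆ D`, where
`D = Q_v ∩ Q_p ∩ Q_(v+p)`. It gives MAXR, and so the elementary type conjecture for `-1 = 1`.
-/

set_option autoImplicit false
set_option linter.unusedSectionVars false

namespace Pool.Agent.MXR66

open QS
open Pool.Agent.REG10 (RegE HasReg)

section

variable {S : QStruct}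

/-- `c ∈ Q_v ∩ Q_p ∩ Q_(vp)` -/
def InD (S : QStruct) (v p : S.G) (c : S.Q) : Prop :=
  (∃ z, S.q v z = c) ∧ (∃ z, S.q p z = c) ∧ (∃ z, S.q (v * p) z = c)

/-- law ID at `(v, p)` (helper22) -/
def LawID (S : QStruct) (v p : S.G) : Prop := ∃ s : S.G,
  (∀ x, S.q p x = S.zero → InD S v p (S.q s x)) ∧
  (∀ x, S.q v x = S.zero → InD S v p (S.q s x)) ∧
  (∀ x, S.q (v * p) x = S.zero → InD S v p (S.q (s * p) x))

/-- sums of common values -/
theorem common_add {a b x y : S.G} (h1 : ∃ z, S.q b z = S.q a x) (h2 : ∃ z, S.q b z = S.q a y) :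
    ∃ z, S.q b z = S.q a (x * y) := by
  obtain ⟨z, hz⟩ := h1
  obtain ⟨z', hz'⟩ := h2
  obtain ⟨u, hu1, hu2⟩ := S.qs4 a x b z hz.symm
  obtain ⟨u', hu1', hu2'⟩ := S.qs4 a y b z' hz'.symm
  have e : S.q a u = S.q b u := by rw [← hu1, ← hu2, hz]
  have e' : S.q a u' = S.q b u' := by rw [← hu1', ← hu2', hz']
  have e2 : S.q (a * b) (u * u') = S.zero := by
    rw [qr (ql e)]; exact ql e'
  have e3 : S.q a ((x * y) * (u * u')) = S.zero := by
    rw [mul_mul_mul_comm, qr (qm hu1)]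
    exact qm hu1'
  refine ⟨u * u', ?_⟩
  rw [← of_ql e2]
  exact ((S.qs3 _ _ _).2 e3).symm

/-- a common value of `v` and `vp` is a value of `v` on `V_p` -/
theorem slot_vp {v p : S.G} {c : S.Q} (h1 : ∃ z, S.q v z = c) (h2 : ∃ z, S.q (v * p) z = c) :
    ∃ w, S.q p w = S.zero ∧ S.q v w = c := by
  obtain ⟨z, hz⟩ := h1
  obtain ⟨z', hz'⟩ := h2
  obtain ⟨x, hx1, hx2⟩ := S.qs4 v z (v * p) z' (by rw [hz, hz'])
  refine ⟨x, ?_, by rw [← hx1, hz]⟩
  have h3 : S.q v x = S.q (v * p) x := by rw [← hx1, ← hx2, hz, hz']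
  have h4 := ql h3
  rwa [← mul_assoc, S.exp_two, one_mul] at h4

theorem id_lt [Finite S.G] {v p w : S.G} (hp : va S p ≤ va S (v * p))
    (hw : S.q p w = S.zero) (hn : ∀ z, S.q p z ≠ S.q v w) (h : LawID S v p) :
    ∃ y, (∀ z, S.q p z ≠ S.q y w) ∧ va S v < va S y := by
  classical
  have := Fintype.ofFinite S.G
  obtain ⟨s, hs1, hs2, hs3⟩ := h
  refine ⟨v * s, ?_, ?_⟩
  · -- `w y ∉ Q_p`
    intro z hz
    -- `q w (v s)`, `q w s` in `Q_p`
    have h1 : ∃ z, S.q p z = S.q w (v * s) := ⟨z, by rw [hz, S.qs2]⟩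
    have h2 : ∃ z, S.q p z = S.q w s := by
      obtain ⟨-, ⟨z, hz⟩, -⟩ := hs1 w hw
      exact ⟨z, by rw [hz, S.qs2]⟩
    obtain ⟨z', hz'⟩ := common_add h1 h2
    apply hn z'
    rw [hz', mul_assoc, S.exp_two, mul_one, S.qs2]
  · -- the values of `y` on `V_v`
    have hy1 : ∀ x, S.q v x = S.zero → InD S v p (S.q (v * s) x) := by
      intro x hx
      have : S.q (v * s) x = S.q s x := by
        rw [S.qs2, qr (by rw [S.qs2]; exact hx), S.qs2]
      rw [this]
      exact hs2 x hx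
    have hy2 : ∀ x, S.q (v * p) x = S.zero → InD S v p (S.q (v * s) x) := by
      intro x hx
      have : S.q (v * s) x = S.q (s * p) x := by
        have e : v * s = (v * p) * (s * p) := by
          rw [mul_mul_mul_comm, S.exp_two, mul_one]
        rw [e, S.qs2, qr (by rw [S.qs2]; exact hx), S.qs2]
      rw [this]
      exact hs3 x hx
    have hadd : ∀ x y, InD S v p (S.q (v * s) x) → InD S v p (S.q (v * s) y) →
        InD S v p (S.q (v * s) (x * y)) := fun x y ⟨a1, a2, a3⟩ ⟨b1, b2, b3⟩ =>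
      ⟨common_add a1 b1, common_add a2 b2, common_add a3 b3⟩
    -- the set `H = V_v V_(vp)`
    let K := {x : S.G // S.q v x = S.zero ∧ S.q p x = S.zero}
    let Vv := {x : S.G // S.q v x = S.zero}
    let Vp := {x : S.G // S.q p x = S.zero}
    let Vvp := {x : S.G // S.q (v * p) x = S.zero}
    let Vy := {x : S.G // S.q (v * s) x = S.zero}
    let D := {c : S.Q // InD S v p c ∧ ∃ x1 x2, S.q v x1 = S.zero ∧ S.q (v * p) x2 = S.zero ∧
      S.q (v * s) (x1 * x2) = c}
    let D' := {c : S.Q // InD S v p c ∧ ∃ x, S.q v x = c ∧ S.q p x = S.zero}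
    let A := {c : S.Q // ∃ x, S.q v x = c ∧ S.q p x = S.zero}
    -- finiteness
    have fD : Finite D := by
      refine Finite.of_surjective (fun x : {x : S.G × S.G // S.q v x.1 = S.zero ∧
        S.q (v * p) x.2 = S.zero} => (⟨S.q (v * s) (x.1.1 * x.1.2),
          hadd _ _ (hy1 _ x.2.1) (hy2 _ x.2.2), x.1.1, x.1.2, x.2.1, x.2.2, rfl⟩ : D)) ?_
      rintro ⟨c, hc, x1, x2, h1, h2, h3⟩
      exact ⟨⟨(x1, x2), h1, h2⟩, Subtype.ext h3⟩
    have fA : Finite A := by
      refine Finite.of_surjective (fun x : Vp => (⟨S.q v x.1, x.1, rfl, x.2⟩ : A)) ?_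
      rintro ⟨c, x, h1, h2⟩
      exact ⟨⟨x, h2⟩, Subtype.ext h1⟩
    -- `|V_v| |V_(vp)| ≤ |D| |V_y| |K|`
    have c1 : Nat.card (Vv × Vvp) ≤ Nat.card (D × Vy × K) := by
      choose t1 t2 ht1 ht2 ht3 using fun c : D => c.2.2
      -- a decomposition for each element of `H`
      let Hs := {h : S.G // ∃ x1 x2, S.q v x1 = S.zero ∧ S.q (v * p) x2 = S.zero ∧ x1 * x2 = h}
      choose d1 d2 hd1 hd2 hd3 using fun h : Hs => h.2
      let val : Vv × Vvp → D := fun x => ⟨S.q (v * s) (x.1.1 * x.2.1),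
        hadd _ _ (hy1 _ x.1.2) (hy2 _ x.2.2), x.1.1, x.2.1, x.1.2, x.2.2, rfl⟩
      let hh : Vv × Vvp → Hs := fun x => ⟨x.1.1 * x.2.1, x.1.1, x.2.1, x.1.2, x.2.2, rfl⟩
      let f : Vv × Vvp → D × Vy × K := fun x =>
        (val x, ⟨(x.1.1 * x.2.1) * (t1 (val x) * t2 (val x)),
          qm (b := x.1.1 * x.2.1) ((ht3 (val x)).symm)⟩,
         ⟨x.1.1 * d1 (hh x), by
            have h1 : S.q v (x.1.1 * d1 (hh x)) = S.zero := by
              rw [qr x.1.2]; exact hd1 _
            refine ⟨h1, ?_⟩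
            -- `x1 d1 = x2 d2 ∈ V_(vp)`
            have e : x.1.1 * d1 (hh x) = x.2.1 * d2 (hh x) := by
              have e1 : d1 (hh x) * d2 (hh x) = x.1.1 * x.2.1 := hd3 (hh x)
              have : (x.1.1 * d1 (hh x)) * (x.2.1 * d2 (hh x)) = 1 := by
                rw [mul_mul_mul_comm, e1, S.exp_two]
              calc x.1.1 * d1 (hh x) = (x.1.1 * d1 (hh x)) *
                    ((x.2.1 * d2 (hh x)) * (x.2.1 * d2 (hh x))) := by rw [S.exp_two, mul_one]
                _ = ((x.1.1 * d1 (hh x)) * (x.2.1 * d2 (hh x))) * (x.2.1 * d2 (hh x)) :=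
                    (mul_assoc _ _ _).symm
                _ = x.2.1 * d2 (hh x) := by rw [this, one_mul]
            have h2 : S.q (v * p) (x.1.1 * d1 (hh x)) = S.zero := by
              rw [e, qr x.2.2]; exact hd2 _
            have h3 : S.q p (x.1.1 * d1 (hh x)) = S.q v (x.1.1 * d1 (hh x)) :=
              (of_ql h2).symm
            rw [h3, h1]⟩)
      refine Nat.card_le_card_of_injective f ?_
      intro x x' hxx
      have e1 : val x = val x' := congrArg Prod.fst hxx
      have e2 : (x.1.1 * x.2.1) * (t1 (val x) * t2 (val x)) =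
          (x'.1.1 * x'.2.1) * (t1 (val x') * t2 (val x')) :=
        congrArg Subtype.val (congrArg (fun z => z.2.1) hxx)
      rw [e1] at e2
      have e3 : x.1.1 * x.2.1 = x'.1.1 * x'.2.1 := mul_right_cancel e2
      have e4 : hh x = hh x' := Subtype.ext e3
      have e5 : x.1.1 * d1 (hh x) = x'.1.1 * d1 (hh x') :=
        congrArg Subtype.val (congrArg (fun z => z.2.2) hxx)
      rw [e4] at e5
      have e6 : x.1.1 = x'.1.1 := mul_right_cancel e5
      rw [e6] at e3
      have e7 : x.2.1 = x'.2.1 := mul_left_cancel e3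
      exact Prod.ext (Subtype.ext e6) (Subtype.ext e7)
    -- `|K| |A| ≤ |V_p|`
    have c2 : Nat.card (K × A) ≤ Nat.card Vp := by
      choose t ht1 ht2 using fun c : A => c.2
      let f : K × A → Vp := fun x => ⟨x.1.1 * t x.2, by rw [qr x.1.2.2]; exact ht2 _⟩
      refine Nat.card_le_card_of_injective f ?_
      intro x x' hxx
      have e : x.1.1 * t x.2 = x'.1.1 * t x'.2 := congrArg Subtype.val hxx
      have e1 : x.2 = x'.2 := by
        apply Subtype.ext
        have := congrArg (S.q v) e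
        rw [qr x.1.2.1, qr x'.1.2.1, ht1, ht1] at this
        exact this
      rw [e1] at e
      exact Prod.ext (Subtype.ext (mul_right_cancel e)) e1
    -- `|D| < |A|`
    have c3 : Nat.card D < Nat.card A := by
      let g : D → A := fun c => ⟨c.1, by
        obtain ⟨w, h1, h2⟩ := slot_vp c.2.1.1 c.2.1.2.2
        exact ⟨w, h2, h1⟩⟩
      have hg : Function.Injective g := fun c c' h => by
        have h' : (g c).1 = (g c').1 := congrArg Subtype.val h
        exact Subtype.ext h'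
      have hns : (⟨S.q v w, w, rfl, hw⟩ : A) ∉ Set.range g := by
        rintro ⟨c, hc⟩
        obtain ⟨z, hz⟩ := c.2.1.2.1
        apply hn z
        rw [hz]
        exact congrArg Subtype.val hc
      have := Fintype.ofFinite D
      have := Fintype.ofFinite A
      rw [Nat.card_eq_fintype_card, Nat.card_eq_fintype_card]
      exact Fintype.card_lt_of_injective_of_notMem g hg hns
    have hK : 0 < Nat.card K := by
      haveI : Nonempty K := ⟨⟨1, S.q_one v, S.q_one p⟩⟩
      exact Nat.card_pos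
    have hVy : 0 < Nat.card Vy := by
      haveI : Nonempty Vy := ⟨⟨1, S.q_one _⟩⟩
      exact Nat.card_pos
    rw [Nat.card_prod, Nat.card_prod, Nat.card_prod] at c1
    rw [Nat.card_prod] at c2
    show Nat.card Vv < Nat.card Vy
    have hp' : Nat.card Vp ≤ Nat.card Vvp := hp
    by_contra hlt
    push Not at hlt
    have l1 : Nat.card Vy * (Nat.card K * Nat.card A) ≤ Nat.card D * (Nat.card Vy * Nat.card K) :=
      calc Nat.card Vy * (Nat.card K * Nat.card A)
          ≤ Nat.card Vv * Nat.card Vvp := Nat.mul_le_mul hlt (c2.trans hp')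
        _ ≤ _ := c1
    have l2 : Nat.card D * (Nat.card Vy * Nat.card K) < Nat.card A * (Nat.card Vy * Nat.card K) :=
      Nat.mul_lt_mul_of_pos_right c3 (Nat.mul_pos hVy hK)
    have l3 : Nat.card Vy * (Nat.card K * Nat.card A) = Nat.card A * (Nat.card Vy * Nat.card K) := by
      ring
    omega

theorem reg_of_ID [Finite S.G]
    (h : ∀ p v w : S.G, (∀ x, va S p ≤ va S x) → S.q p w = S.zero → (∀ z, S.q p z ≠ S.q v w) →
      (∀ y, (∀ z, S.q p z ≠ S.q y w) → va S y ≤ va S v) → LawID S v p) :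
    ∃ p, RegE S p := by
  obtain ⟨p, hp⟩ := exists_max (S := S)
  refine ⟨p, ?_⟩
  by_contra hr
  obtain ⟨v0, w, hw, hv0⟩ := out_of_not hr
  have : Nonempty {y : S.G // ∀ z, S.q p z ≠ S.q y w} := ⟨⟨v0, hv0⟩⟩
  obtain ⟨⟨v, hv⟩, hmax⟩ := Finite.exists_max
    (fun y : {y : S.G // ∀ z, S.q p z ≠ S.q y w} => va S y.1)
  obtain ⟨y, hy, hlt⟩ := id_lt (hp _) hw hv (h p v w hp hw hv fun y hy => hmax ⟨y, hy⟩)
  exact absurd (hmax ⟨y, hy⟩) (not_le.2 hlt)

end

/-- law ID (helper22) gives the elementary type conjecture, `-1 = 1` -/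
theorem etc_of_ID (h : ∀ S : QStruct, Finite S.G → S.neg = 1 → ∀ p v w : S.G,
    (∀ x, va S p ≤ va S x) → S.q p w = S.zero → (∀ z, S.q p z ≠ S.q v w) →
      (∀ y, (∀ z, S.q p z ≠ S.q y w) → va S y ≤ va S v) → LawID S v p) :
    ∀ S : QStruct, Finite S.G → S.neg = 1 → ElemType S :=
  etc_of_reg fun S hf hneg => by
    haveI := hf
    exact reg_of_ID (h S hf hneg)

end Pool.Agent.MXR66
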