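import Pool.Agent.REG10.FN
import Pool.Agent.REG10.SAll
import Pool.Agent.REG10.ER

/-!
Doors for MAXR (a finite structure with `-1 = 1` has an element `p` with `V V_p ⊆ Q_p`), helper66.

* `etc_of_reg`: MAXR (at one `p`) gives the elementary type conjecture for `-1 = 1`;
* `clean_lt`: if `Q_p ∩ Q_y ⊆ Q_(py)` and some value of `y` on `V_p` is not in `Q_p`, then `py`
  has larger rank than `p`;
* `etc_of_clean`, `etc_of_MM` (helper70), `etc_of_MM0` (helper55, helper82), `etc_of_CCP`
  (helper79), `etc_of_A` (helper81), `etc_of_N` (helper82).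
-/

set_option autoImplicit false
set_option linter.unusedSectionVars false

namespace Pool.Agent.MXR66

open QS
open Pool.Agent.REG10 (RegE HasReg)

/-- MAXR at one element for every structure gives the elementary type conjecture, `-1 = 1` -/
theorem etc_of_reg (h : ∀ S : QStruct, Finite S.G → S.neg = 1 → ∃ x, RegE S x) :
    ∀ S : QStruct, Finite S.G → S.neg = 1 → ElemType S := by
  have key : ∀ (n : ℕ) (S : QStruct), Finite S.G → Nat.card S.G = n → S.neg = 1 →
      ElemType S := by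
    intro n
    induction n using Nat.strong_induction_on with
    | _ n ih =>
      intro S hf hn hneg
      exact REG10.elem_of_smaller REG10.srgx S hneg ((REG10.regE_iff S).1 (h S hf hneg))
        (fun T hT hTn hlt => ih _ (by omega) T hT rfl hTn)
  exact fun S hf hneg => key _ S hf rfl hneg

/-- MAXR is needed only when all smaller structures are of elementary type and `S` is not -/
theorem etc_of_reg' (h : ∀ S : QStruct, Finite S.G → S.neg = 1 → ¬ ElemType S →
    (∀ T : QStruct, Finite T.G → T.neg = 1 → Nat.card T.G < Nat.card S.G → ElemType T) →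
    ∃ x, RegE S x) :
    ∀ S : QStruct, Finite S.G → S.neg = 1 → ElemType S := by
  have key : ∀ (n : ℕ) (S : QStruct), Finite S.G → Nat.card S.G = n → S.neg = 1 →
      ElemType S := by
    intro n
    induction n using Nat.strong_induction_on with
    | _ n ih =>
      intro S hf hn hneg
      by_contra hS
      have hT : ∀ T : QStruct, Finite T.G → T.neg = 1 → Nat.card T.G < Nat.card S.G →
          ElemType T := fun T hT hTn hlt => ih _ (by omega) T hT rfl hTn
      exact hS (REG10.elem_of_smaller REG10.srgx S hneg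
        ((REG10.regE_iff S).1 (h S hf hneg hS hT)) hT)
  exact fun S hf hneg => key _ S hf rfl hneg

section

variable {S : QStruct}

/-- the size of `V_x` -/
noncomputable def va (S : QStruct) (x : S.G) : ℕ := Nat.card {v : S.G // S.q x v = S.zero}

/-- `Q_p ∩ Q_y ⊆ Q_(py)` -/
def Clean (S : QStruct) (p y : S.G) : Prop :=
  ∀ a b, S.q p a = S.q y b → ∃ z, S.q (p * y) z = S.q p a

theorem qr {a b c : S.G} (h : S.q a b = S.zero) : S.q a (b * c) = S.q a c :=
  S.q_zero_mul h

theorem qm {a b c : S.G} (h : S.q a b = S.q a c) : S.q a (b * c) = S.zero := (S.qs3 a b c).1 h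

theorem ql {a b c : S.G} (h : S.q b a = S.q c a) : S.q (b * c) a = S.zero := by
  rw [S.qs2, ← S.qs3, S.qs2 a b, S.qs2 a c, h]

theorem of_ql {a b c : S.G} (h : S.q (b * c) a = S.zero) : S.q b a = S.q c a := by
  rw [S.qs2 b, S.qs2 c, S.qs3, S.qs2, h]

theorem cancel (a b : S.G) : a * (b * a) = b := by
  rw [mul_comm b a, ← mul_assoc, S.exp_two, one_mul]

/-- **the pencil inequality** -/
theorem clean_lt [Finite S.G] {p y w : S.G} (hw : S.q p w = S.zero)
    (hn : ∀ z, S.q p z ≠ S.q y w) (hc : Clean S p y) : va S (p * y) < va S p := by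
  classical
  have := Fintype.ofFinite S.G
  -- a slot of `y` in `V_p`
  have hu : ∀ c : S.Q, (∃ v, S.q p v = c ∧ S.q y v = c) → ∃ u, S.q p u = S.zero ∧ S.q y u = c := by
    rintro c ⟨v, h1, h2⟩
    obtain ⟨z, hz⟩ := hc v v (h1.trans h2.symm)
    obtain ⟨x, hx1, hx2⟩ := S.qs4 y v (p * y) z (by rw [h2, hz, h1])
    refine ⟨x, ?_, by rw [← hx1, h2]⟩
    have h3 : S.q y x = S.q (p * y) x := by rw [← hx1, ← hx2, hz, h1, h2]
    have h4 := ql h3
    rwa [cancel] at h4
  choose! u hu1 hu2 using hu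
  have ht : ∀ c : S.Q, (∃ v, S.q p v = c ∧ S.q y v = c) → ∃ t, S.q p t = c ∧ S.q y t = c :=
    fun c h => h
  choose! t ht1 ht2 using ht
  let f : {v : S.G // S.q (p * y) v = S.zero} → {v : S.G // S.q p v = S.zero} := fun v =>
    ⟨u (S.q p v) * (v * t (S.q p v)), by
      have e : ∃ v', S.q p v' = S.q p v.1 ∧ S.q y v' = S.q p v.1 :=
        ⟨v, rfl, (of_ql v.2).symm⟩
      rw [qr (hu1 _ e)]
      exact qm (ht1 _ e).symm⟩
  have hy : ∀ v : {v : S.G // S.q (p * y) v = S.zero}, S.q y (f v).1 = S.q p v.1 := by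
    intro v
    have e : ∃ v', S.q p v' = S.q p v.1 ∧ S.q y v' = S.q p v.1 := ⟨v, rfl, (of_ql v.2).symm⟩
    have h1 : S.q y (v.1 * t (S.q p v)) = S.zero :=
      qm ((of_ql v.2).symm.trans (ht2 _ e).symm)
    show S.q y (u (S.q p v) * (v.1 * t (S.q p v))) = _
    rw [mul_comm, qr h1]
    exact hu2 _ e
  have hinj : Function.Injective f := by
    intro v v' h
    have h1 : S.q p v.1 = S.q p v'.1 := by rw [← hy v, ← hy v', h]
    have h2 : u (S.q p v.1) * (v.1 * t (S.q p v.1)) =
        u (S.q p v'.1) * (v'.1 * t (S.q p v'.1)) := congrArg Subtype.val h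
    rw [h1] at h2
    exact Subtype.ext (mul_right_cancel (mul_left_cancel h2))
  have hns : (⟨w, hw⟩ : {v : S.G // S.q p v = S.zero}) ∉ Set.range f := by
    rintro ⟨v, hv⟩
    apply hn v.1
    rw [← hy v, hv]
  unfold va
  rw [Nat.card_eq_fintype_card, Nat.card_eq_fintype_card]
  exact Fintype.card_lt_of_injective_of_notMem f hinj hns

/-- an element of largest rank -/
theorem exists_max [Finite S.G] : ∃ p : S.G, ∀ x, va S p ≤ va S x := by
  obtain ⟨p, hp⟩ := Finite.exists_min (fun x : S.G => va S x)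
  exact ⟨p, hp⟩

/-- `y` takes on `V_p` a value outside `Q_p` -/
def Out (S : QStruct) (p y : S.G) : Prop := ∃ w, S.q p w = S.zero ∧ ∀ z, S.q p z ≠ S.q y w

theorem out_of_not {p : S.G} (h : ¬ RegE S p) : ∃ y, Out S p y := by
  unfold RegE at h
  push Not at h
  obtain ⟨w, v, hw, hz⟩ := h
  exact ⟨v, w, hw, fun z hz' => hz z (by rw [hz', S.qs2])⟩

/-- if every element of largest rank that is not regular has some `y` that raises its rank -/
theorem reg_of_raise [Finite S.G]
    (h : ∀ p, (∀ x, va S p ≤ va S x) → (∃ y, Out S p y) → ∃ y, va S (p * y) < va S p) :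
    ∃ p, RegE S p := by
  obtain ⟨p, hp⟩ := exists_max (S := S)
  refine ⟨p, ?_⟩
  by_contra hr
  obtain ⟨y, hy⟩ := h p hp (out_of_not hr)
  exact absurd (hp (p * y)) (not_le.2 hy)

/-- if some `y` that is not below `p` is clean -/
theorem reg_of_clean [Finite S.G]
    (h : ∀ p, (∀ x, va S p ≤ va S x) → (∃ y, Out S p y) → ∃ y, Out S p y ∧ Clean S p y) :
    ∃ p, RegE S p :=
  reg_of_raise fun p hp ho => by
    obtain ⟨y, ⟨w, hw, hz⟩, hc⟩ := h p hp ho
    exact ⟨y, clean_lt hw hz hc⟩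

/-- law MM (helper70) -/
def LawMM (S : QStruct) : Prop := ∀ w y p : S.G,
  (∀ y', S.q w y' = S.q w y → va S y' ≤ va S y) → S.q w p = S.zero →
  (∀ z, S.q p z ≠ S.q w y) → va S (p * y) < va S p

/-- law MM0 (helper55, helper82) -/
def LawMM0 (S : QStruct) : Prop := ∀ w y p : S.G,
  (∀ y', S.q w y' = S.q w y → va S y' ≤ va S y) → S.q w p = S.zero → Clean S p y

/-- law CCP (helper79, helper40) -/
def LawCCP (S : QStruct) : Prop := ∀ p y : S.G,
  (∀ g, (∀ w, S.q p w = S.zero → S.q g w = S.zero) → va S (y * g) ≤ va S y) → Clean S p y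

/-- law A (helper81) -/
def LawA (S : QStruct) : Prop := ∀ p y : S.G, Out S p y →
  (∀ y', Out S p y' → va S y' ≤ va S y) → va S (p * y) < va S p

/-- law N (helper82) -/
def LawN (S : QStruct) : Prop := ∀ (t : S.G) (H : Subgroup S.G), t ∉ H →
  (∀ v, v ∉ H → va S v ≤ va S t) → ∀ p, Clean S t p ∨ Clean S t (t * p)

theorem mm_of_mm0 [Finite S.G] (h : LawMM0 S) : LawMM S := by
  intro w y p hy hp hz
  refine clean_lt (w := w) (by rw [S.qs2, hp]) (fun z => ?_) (h w y p hy hp)
  rw [S.qs2 y w]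
  exact hz z

theorem reg_of_MM [Finite S.G] (h : LawMM S) : ∃ p, RegE S p :=
  reg_of_raise fun p _ ho => by
    obtain ⟨v, w, hw, hz⟩ := ho
    have : Nonempty {y : S.G // S.q w y = S.q w v} := ⟨⟨v, rfl⟩⟩
    obtain ⟨⟨y, hy⟩, hmax⟩ := Finite.exists_max
      (fun y : {y : S.G // S.q w y = S.q w v} => va S y.1)
    refine ⟨y, h w y p (fun y' hy' => hmax ⟨y', hy'.trans hy⟩) (by rw [S.qs2, hw]) fun z => ?_⟩
    rw [hy, S.qs2 w v]
    exact hz z

theorem reg_of_MM0 [Finite S.G] (h : LawMM0 S) : ∃ p, RegE S p := reg_of_MM (mm_of_mm0 h)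

theorem reg_of_A [Finite S.G] (h : LawA S) : ∃ p, RegE S p :=
  reg_of_raise fun p _ ho => by
    obtain ⟨v, hv⟩ := ho
    have : Nonempty {y : S.G // Out S p y} := ⟨⟨v, hv⟩⟩
    obtain ⟨⟨y, hy⟩, hmax⟩ := Finite.exists_max (fun y : {y : S.G // Out S p y} => va S y.1)
    exact ⟨y, h p y hy fun y' hy' => hmax ⟨y', hy'⟩⟩

theorem reg_of_CCP [Finite S.G] (h : LawCCP S) : ∃ p, RegE S p :=
  reg_of_clean fun p _ ho => by
    obtain ⟨v, w, hw, hz⟩ := ho
    have : Nonempty {g : S.G // ∀ w, S.q p w = S.zero → S.q g w = S.zero} :=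
      ⟨⟨1, fun w _ => by rw [S.qs2, S.q_one]⟩⟩
    obtain ⟨⟨g, hg⟩, hmax⟩ := Finite.exists_max
      (fun g : {g : S.G // ∀ w, S.q p w = S.zero → S.q g w = S.zero} => va S (v * g.1))
    have hv : S.q (v * g) w = S.q v w := by
      rw [S.qs2, mul_comm, qr (by rw [S.qs2]; exact hg w hw), S.qs2]
    refine ⟨v * g, ⟨w, hw, fun z => by rw [hv]; exact hz z⟩, h p (v * g) fun g' hg' => ?_⟩
    have := hmax ⟨g * g', fun w hw => by
      rw [S.qs2, qr (by rw [S.qs2]; exact hg w hw), S.qs2]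
      exact hg' w hw⟩
    rw [mul_assoc]
    exact this

/-- the elements below `p`: `z V_p ⊆ Q_p` -/
def below (S : QStruct) (p : S.G) : Subgroup S.G where
  carrier := {z | ∀ w, S.q p w = S.zero → ∃ x, S.q p x = S.q z w}
  one_mem' := fun w _ => ⟨1, by rw [S.q_one, S.qs2, S.q_one]⟩
  inv_mem' := fun {z} hz => by
    have : z⁻¹ = z := by
      rw [inv_eq_iff_mul_eq_one, S.exp_two]
    rw [this]
    exact hz
  mul_mem' := fun {z z'} hz hz' w hw => by
    obtain ⟨a, ha⟩ := hz w hw
    obtain ⟨a', ha'⟩ := hz' w hw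
    obtain ⟨x, h1, h2⟩ := S.qs4 w z p a (by rw [ha, S.qs2])
    obtain ⟨x', h1', h2'⟩ := S.qs4 w z' p a' (by rw [ha', S.qs2])
    have e : S.q w x = S.q p x := by rw [← h1, ← h2, ha, S.qs2]
    have e' : S.q w x' = S.q p x' := by rw [← h1', ← h2', ha', S.qs2]
    have e2 : S.q (w * p) (x * x') = S.zero := by
      rw [qr (ql e)]
      exact ql e'
    have e3 : S.q w ((z * z') * (x * x')) = S.zero := by
      rw [mul_mul_mul_comm, qr (qm h1)]
      exact qm h1'
    refine ⟨x * x', ?_⟩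
    rw [← of_ql e2, S.qs2 (z * z')]
    exact ((S.qs3 _ _ _).2 e3).symm

theorem reg_of_N [Finite S.G] (h : LawN S) : ∃ p, RegE S p :=
  reg_of_raise fun p _ ho => by
    have hout : ∀ y, Out S p y ↔ y ∉ below S p := by
      intro y
      constructor
      · rintro ⟨w, hw, hz⟩ hy
        obtain ⟨x, hx⟩ := hy w hw
        exact hz x hx
      · intro hy
        have hy' : ¬ ∀ w, S.q p w = S.zero → ∃ x, S.q p x = S.q y w := hy
        push Not at hy'
        exact hy'
    obtain ⟨v, hv⟩ := ho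
    have : Nonempty {y : S.G // y ∉ below S p} := ⟨⟨v, (hout v).1 hv⟩⟩
    obtain ⟨⟨t, ht⟩, hmax⟩ := Finite.exists_max (fun y : {y : S.G // y ∉ below S p} => va S y.1)
    obtain ⟨w, hw, hz⟩ := (hout t).2 ht
    refine ⟨t, ?_⟩
    rcases h t (below S p) ht (fun v hv => hmax ⟨v, hv⟩) p with hc | hc
    · refine clean_lt hw hz fun a b hab => ?_
      obtain ⟨z, hz'⟩ := hc b a hab.symm
      exact ⟨z, by rw [mul_comm p t, hz', hab]⟩
    · exfalso
      have e : S.q t w = S.q (t * p) w := by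
        rw [S.qs2 t, S.qs2 (t * p), mul_comm t p, qr (by rw [S.qs2]; exact hw)]
      obtain ⟨z, hz'⟩ := hc w w e
      rw [← mul_assoc, S.exp_two, one_mul] at hz'
      exact hz z hz'

end

theorem etc_of_clean (h : ∀ S : QStruct, Finite S.G → S.neg = 1 → ∀ p : S.G,
    (∀ x, va S p ≤ va S x) → (∃ y, Out S p y) → ∃ y, Out S p y ∧ Clean S p y) :
    ∀ S : QStruct, Finite S.G → S.neg = 1 → ElemType S :=
  etc_of_reg fun S hf hneg => by
    haveI := hf
    exact reg_of_clean (h S hf hneg)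

theorem etc_of_MM (h : ∀ S : QStruct, Finite S.G → S.neg = 1 → LawMM S) :
    ∀ S : QStruct, Finite S.G → S.neg = 1 → ElemType S :=
  etc_of_reg fun S hf hneg => by
    haveI := hf
    exact reg_of_MM (h S hf hneg)

theorem etc_of_MM0 (h : ∀ S : QStruct, Finite S.G → S.neg = 1 → LawMM0 S) :
    ∀ S : QStruct, Finite S.G → S.neg = 1 → ElemType S :=
  etc_of_reg fun S hf hneg => by
    haveI := hf
    exact reg_of_MM0 (h S hf hneg)

theorem etc_of_CCP (h : ∀ S : QStruct, Finite S.G → S.neg = 1 → LawCCP S) :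
    ∀ S : QStruct, Finite S.G → S.neg = 1 → ElemType S :=
  etc_of_reg fun S hf hneg => by
    haveI := hf
    exact reg_of_CCP (h S hf hneg)

theorem etc_of_A (h : ∀ S : QStruct, Finite S.G → S.neg = 1 → LawA S) :
    ∀ S : QStruct, Finite S.G → S.neg = 1 → ElemType S :=
  etc_of_reg fun S hf hneg => by
    haveI := hf
    exact reg_of_A (h S hf hneg)

theorem etc_of_N (h : ∀ S : QStruct, Finite S.G → S.neg = 1 → LawN S) :
    ∀ S : QStruct, Finite S.G → S.neg = 1 → ElemType S :=
  etc_of_reg fun S hf hneg => by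
    haveI := hf
    exact reg_of_N (h S hf hneg)

end Pool.Agent.MXR66
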